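import Pool.Agent.Helper64.PQ.Goals

/-!
# PQ-C3 (packet 7418): lifting maps through the covering by the upper half plane
-/

set_option autoImplicit false

open Topology Filter Set Metric UpperHalfPlane
open scoped MatrixGroups

namespace Pool.Agent.Helper49.PQ

open Pool.Agent.Helper64.PQ

theorem u_cont {X : Type*} [TopologicalSpace X] {q r : X} {u : ℍ → X} (h : NUnif q r u) :
    Continuous u := by
  have h1 : ContinuousOn u (u ⁻¹' {q, r}ᶜ) := h.cov.continuousOn
  have h2 : u ⁻¹' {q, r}ᶜ = univ := by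
    rw [← h.range]
    ext x
    simp
  rw [h2] at h1
  exact continuousOn_univ.mp h1

theorem u_mem {X : Type*} [TopologicalSpace X] {q r : X} {u : ℍ → X} (h : NUnif q r u) (v : ℍ) :
    u v ∈ ({q, r}ᶜ : Set X) := by
  rw [← h.range]
  exact ⟨v, rfl⟩

theorem smul_cont (γ : SL(2, ℝ)) : Continuous (fun v : ℍ => γ • v) := continuous_const_smul γ

theorem goalC3.{v} : GoalC3.{v} := by
  intro X _ _ q r u hu
  have huc := u_cont hu
  refine ⟨fun f hf hq hr z w hzw => ?_, fun f F hF γ hγ => ?_⟩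
  · have hs : ∀ v, (⟨fun v => f (u v), hf.comp huc⟩ : C(ℍ, X)) v ∈ ({q, r}ᶜ : Set X) := by
      intro v hv
      have h1 := u_mem hu v
      change f (u v) ∈ ({q, r} : Set X) at hv
      rw [mem_compl_iff, mem_insert_iff, mem_singleton_iff, not_or] at h1
      rw [mem_insert_iff, mem_singleton_iff] at hv
      rcases hv with hv | hv
      · exact h1.1 ((hq _).1 hv)
      · exact h1.2 ((hr _).1 hv)
    obtain ⟨F, ⟨hF1, hF2⟩, hF3⟩ := hu.cov.existsUnique_continuousMap_lifts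
      (⟨fun v => f (u v), hf.comp huc⟩ : C(ℍ, X)) (a₀ := z) (e₀ := w) hzw hs
    refine ⟨F, ⟨hF1, fun v => congrFun hF2 v⟩, ?_⟩
    rintro G ⟨hG1, hG2⟩
    exact hF3 G ⟨hG1, funext hG2⟩
  · obtain ⟨γ', hγ', h1⟩ := hu.deck (F UpperHalfPlane.I) (F (γ • UpperHalfPlane.I)) (by
      rw [hF, hF, hγ])
    refine ⟨γ', hγ', fun v => ?_⟩
    have hs : ∀ v, (⟨fun v => u (F v), huc.comp F.continuous⟩ : C(ℍ, X)) v ∈ ({q, r}ᶜ : Set X) :=
      fun v => u_mem hu _
    obtain ⟨G, -, hG⟩ := hu.cov.existsUnique_continuousMap_lifts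
      (⟨fun v => u (F v), huc.comp F.continuous⟩ : C(ℍ, X)) (a₀ := UpperHalfPlane.I)
      (e₀ := F (γ • UpperHalfPlane.I)) (by change u _ = u _; rw [hF, hF, hγ]) hs
    have e1 := hG ⟨fun v => F (γ • v), F.continuous.comp (smul_cont γ)⟩ ⟨rfl, by
      funext v
      change u (F (γ • v)) = u (F v)
      rw [hF, hF, hγ]⟩
    have e2 := hG ⟨fun v => γ' • F v, (smul_cont γ').comp F.continuous⟩ ⟨h1, by
      funext v
      change u (γ' • F v) = u (F v)
      rw [hγ']⟩
    have e3 := e1.trans e2.symm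
    exact congrArg (fun g : C(ℍ, ℍ) => g v) e3

end Pool.Agent.Helper49.PQ
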